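import Pool.Agent.H93.PF.TargetsB

/-!
# Power-free shifts: the coded sequences are tiled
-/

set_option autoImplicit false

open MeasureTheory Filter Topology Finset Pool.Agent.H93.PF

namespace Pool.Agent.H39.PF

theorem z0_eq {Y : Type} [MeasurableSpace Y] {T : Y ≃ᵐ Y} {d : ℕ} {m : ℕ → ℕ}
    (c : Cx T d m) (y w : Y) (a g : ℕ) (h1 : la T c.B0 y = a) (h2 : zp T (-(a : ℤ)) y = w)
    (h3 : na T c.B0 w = g) :
    c.z0 y = if h : a < c.tl.R then c.tl.M ⟨a, h⟩ else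
      if h' : a - c.tl.R < g - c.tl.R then c.ct g w ⟨a - c.tl.R, h'⟩
      else c.tl.M ⟨0, c.tl.R0⟩ := by
  subst h1
  subst h2
  subst h3
  rfl

theorem pf_ZTI (hLNB : T_LNB) (hBKF : T_BKF) : T_ZTI := by
  intro Y _ T d m c y hR
  obtain ⟨_, hbelow, _, hnext⟩ := hBKF Y T c.tl.L c.D c.mkD y hR
  have hRL := c.tl.RL
  have hR0 := c.tl.R0
  have hbe : ∀ i : ℤ, ∃ s ∈ ob T c.B0 y, s ≤ i := hbelow 0
  have hne : ∀ s ∈ ob T c.B0 y, ∃ g : ℕ, (g = c.tl.L ∨ g = c.tl.L + 1) ∧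
      Nx (ob T c.B0 y) s g := hnext
  have hg : ∀ s ∈ ob T c.B0 y, ∀ g : ℕ, Nx (ob T c.B0 y) s g → g = c.tl.L ∨ g = c.tl.L + 1 := by
    intro s hs g hN
    obtain ⟨g', hg', hN'⟩ := hne s hs
    rw [hN.uniq hN']
    exact hg'
  have hna : ∀ s ∈ ob T c.B0 y, ∀ g : ℕ, Nx (ob T c.B0 y) s g → na T c.B0 (zp T s y) = g := by
    intro s hs g hN
    have h1 := ((hLNB Y T c.B0 y).2.2.2 s g hs hN s le_rfl (by have := hN.1; omega)).2
    omega
  have key : ∀ s ∈ ob T c.B0 y, ∀ g : ℕ, Nx (ob T c.B0 y) s g → ∀ a : ℕ, a < g →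
      c.phi y (s + a) = if h : a < c.tl.R then c.tl.M ⟨a, h⟩ else
        if h' : a - c.tl.R < g - c.tl.R then c.ct g (zp T s y) ⟨a - c.tl.R, h'⟩
        else c.tl.M ⟨0, c.tl.R0⟩ := by
    intro s hs g hN a ha
    have h1 := ((hLNB Y T c.B0 y).2.2.2 s g hs hN (s + a) (by omega) (by omega)).1
    refine z0_eq c (zp T (s + a) y) (zp T s y) a g (by omega) ?_ (hna s hs g hN)
    rw [← zp_add]
    congr 1
    omega
  have hwin : ∀ s ∈ ob T c.B0 y, ∀ g : ℕ, Nx (ob T c.B0 y) s g →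
      win (c.phi y) (s + c.tl.R) (g - c.tl.R) = c.ct g (zp T s y) := by
    intro s hs g hN
    funext j
    have hj := j.2
    have h1 := key s hs g hN (c.tl.R + (j : ℕ)) (by omega)
    have h2 : s + ((c.tl.R + (j : ℕ) : ℕ) : ℤ) = s + (c.tl.R : ℤ) + ((j : ℕ) : ℤ) := by
      push_cast
      ring
    rw [h2] at h1
    unfold win
    rw [h1, dif_neg (by omega), dif_pos (by omega)]
    congr 1
    apply Fin.ext
    show c.tl.R + (j : ℕ) - c.tl.R = j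
    omega
  have hms : ∀ s ∈ ob T c.B0 y, ∀ g : ℕ, Nx (ob T c.B0 y) s g →
      c.ms (zp T s y) < c.Q g ∧ (co T c.tl.L c.D (zp T s y)).1 < 3 ∧
      (co T c.tl.L c.D (zp T s y)).2 < 40 := by
    intro s hs g hN
    refine ⟨?_, ?_, ?_⟩
    · have h1 := c.msb (zp T s y) (hR.shift s) hs
      have h2 := hna s hs g hN
      unfold Cx.B0 at h2
      rw [h2] at h1
      exact h1
    · exact Nat.mod_lt _ (by norm_num)
    · show min _ 39 < 40
      omega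
  refine ⟨⟨hbe, hne, ?_, ?_⟩, fun s hs g hN => ⟨hwin s hs g hN, hms s hs g hN⟩⟩
  · intro s hs j
    obtain ⟨g, hg', hN⟩ := hne s hs
    have hj := j.2
    have h1 := key s hs g hN (j : ℕ) (by omega)
    rw [h1, dif_pos hj]
  · intro s hs g hN
    rw [hwin s hs g hN]
    obtain ⟨h1, h2, h3⟩ := hms s hs g hN
    exact c.encm g (hg s hs g hN) _ _ h2 h3 h1

end Pool.Agent.H39.PF
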